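import Pool.Agent.helper17.EXC.Spec

set_option autoImplicit false

open Finset

namespace Pool.Agent.EXC

section TPF
variable {n : ℕ} (C : Matrix (Fin n) (Fin n) ℤ) [IsC C] {F : Type} [Field F]

theorem TPF_xe_smul_left (a : Lm C F) (c t : F) (v : Lm C F) : xe C (c • a) t v = xe C a (c * t) v := by
  unfold xe
  rw [br_smul_left, fm_smul_left, smul_smul, smul_smul, mul_comm c t]
  congr 2
  ring

theorem TPF_xe_add (a : Lm C F) (t : F) (v w : Lm C F) : xe C a t (v + w) = xe C a t v + xe C a t w := by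
  unfold xe
  rw [br_add_right, fm_add_right, smul_add, mul_add, add_smul]
  abel

theorem TPF_xe_smul (a : Lm C F) (t c : F) (v : Lm C F) : xe C a t (c • v) = c • xe C a t v := by
  unfold xe
  rw [br_smul_right, fm_smul_right, smul_add, smul_add, smul_smul, smul_smul, smul_smul]
  congr 2
  · rw [mul_comm]
  · ring

/-- root elements of two roots with product `-1` do not commute -/
theorem TPF_m1 (hACT : ACT_stmt) {θ β : Fin n → ℤ} (hθ : ip C θ θ = 2) (hβ : ip C β β = 2) (h : ip C θ β = -1)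
    (hc : ∀ v : Lm C F, xe C (E C θ) 1 (xe C (E C β) 1 v) = xe C (E C β) 1 (xe C (E C θ) 1 v)) : False := by
  have hβθ : ip C β θ = -1 := by rw [ip_comm]; exact h
  set γ : Fin n → ℤ := -θ - β with hγdef
  have hγ : ip C γ γ = 2 := by
    rw [hγdef, ip_sub_left, ip_sub_right, ip_sub_right, ip_neg_left, ip_neg_left, ip_neg_right, ip_neg_right, hθ, hβ, h, hβθ]
    norm_num
  have hθγ : ip C θ γ = -1 := by rw [hγdef, ip_sub_right, ip_neg_right, hθ, h]; norm_num
  have hβγ : ip C β γ = -1 := by rw [hγdef, ip_sub_right, ip_neg_right, hβθ, hβ]; norm_num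
  obtain ⟨_, a2, a3, _, _⟩ := hACT n C F θ (1 : F) hθ
  obtain ⟨b1, b2, b3, _, _⟩ := hACT n C F β (1 : F) hβ
  obtain ⟨a1, _, _, _, _⟩ := hACT n C F θ (1 : F) hθ
  have e1 : β + γ = -θ := by rw [hγdef]; abel
  have e2 : θ + γ = -β := by rw [hγdef]; abel
  have key := hc (E C γ)
  rw [b2 γ hγ hβγ, a2 γ hγ hθγ, e1, e2, TPF_xe_add, TPF_xe_add, TPF_xe_smul, TPF_xe_smul, a3, b3, a2 γ hγ hθγ, b2 γ hγ hβγ,
    e1, e2] at key
  have k2 := congrArg (fun x : Lm C F => cf x θ) key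
  have n1 : θ ≠ γ := by
    intro e
    rw [← e] at hθγ
    omega
  have n2 : θ ≠ -β := by
    intro e
    have : ip C θ β = ip C (-β) β := by rw [← e]
    rw [ip_neg_left, hβ] at this
    omega
  have n3 : θ ≠ -θ := by
    intro e
    have : ip C θ θ = ip C (-θ) θ := by rw [← e]
    rw [ip_neg_left, hθ] at this
    omega
  have n4 : θ ≠ β := by
    intro e
    rw [← e] at h
    omega
  simp only [cf_add, cf_sub, cf_smul, cf_ht, cf_E C hγ, cf_E C hθ, cf_E C hβ, cf_E C (neg_root C hθ), cf_E C (neg_root C hβ),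
    if_neg n1, if_neg n2, if_neg n3, if_neg n4, if_true] at k2
  have := sg_ne_zero (F := F) C β γ
  apply this
  simpa using k2

/-- root elements of two opposite roots do not commute -/
theorem TPF_m2 (hACT : ACT_stmt) (hn : ∀ α, ip C α α = 2 → ∃ β, ip C β β = 2 ∧ ip C α β = -1) {θ : Fin n → ℤ} (hθ : ip C θ θ = 2)
    (hc : ∀ v : Lm C F, xe C (E C θ) 1 (xe C (E C (-θ)) 1 v) = xe C (E C (-θ)) 1 (xe C (E C θ) 1 v)) : False := by
  obtain ⟨γ, hγ, hθγ⟩ := hn θ hθ
  obtain ⟨_, a2, _, _, _⟩ := hACT n C F θ (1 : F) hθ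
  obtain ⟨b1, b2, _, _, _⟩ := hACT n C F (-θ) (1 : F) (neg_root C hθ)
  have h1 : 0 ≤ ip C (-θ) γ := by rw [ip_neg_left, hθγ]; norm_num
  have hg : ip C (θ + γ) (θ + γ) = 2 := (add_root_iff hθ hγ).2 hθγ
  have h2 : ip C (-θ) (θ + γ) = -1 := by rw [ip_neg_left, ip_add_right, hθ, hθγ]; norm_num
  have key := hc (E C γ)
  have e1 : -θ + (θ + γ) = γ := by abel
  rw [b1 γ hγ h1, a2 γ hγ hθγ, TPF_xe_add, TPF_xe_smul, b1 γ hγ h1, b2 (θ + γ) hg h2, e1] at key
  have k2 := congrArg (fun x : Lm C F => cf x γ) key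
  have n1 : γ ≠ θ + γ := by
    intro e
    have e' : θ = 0 := by
      have : θ + γ = 0 + γ := by rw [← e, zero_add]
      exact add_right_cancel this
    rw [e'] at hθ
    simp at hθ
  simp only [cf_add, cf_smul, cf_E C hγ, cf_E C hg, if_neg n1, if_true] at k2
  have q1 := sg_ne_zero (F := F) C θ γ
  have q2 := sg_ne_zero (F := F) C (-θ) (θ + γ)
  have : (sg C θ γ : F) * (sg C (-θ) (θ + γ) : F) = 0 := by
    have := k2
    simp at this
    rcases this with h | h
    · exact absurd h q1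
    · exact absurd h q2
  exact (mul_ne_zero q1 q2) this

end TPF

theorem TPF (hEXF : EXF_stmt) (hACT : ACT_stmt) (hCOL : COL_stmt) (hINV : INV_stmt) : TPF_stmt := by
  intro n C _ F _ θ hθ hn a b m hT
  obtain ⟨hAu, -, hE, -⟩ := hEXF n C F hn
  obtain ⟨k, hk, β, hβ, hm, c, c', hc, hc', ka, kb⟩ := hT
  have ea : a = c • k⁻¹ (E C θ) := by
    have h1 : k⁻¹ (k a) = k⁻¹ (c • E C θ) := congrArg _ ka
    rw [map_smul] at h1
    rw [← h1]
    exact (k.symm_apply_apply a).symm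
  have eb : b = c' • k⁻¹ (E C β) := by
    have h1 : k⁻¹ (k b) = k⁻¹ (c' • E C β) := congrArg _ kb
    rw [map_smul] at h1
    rw [← h1]
    exact (k.symm_apply_apply b).symm
  have hki : k⁻¹ ∈ GE C F := inv_mem hk
  have xa : Ex C a := ⟨k⁻¹, hki, θ, hθ, c, hc, ea⟩
  have xb : Ex C b := ⟨k⁻¹, hki, β, hβ, c', hc', eb⟩
  have Auk := hAu k hk
  have fmab : fm C a b = c * c' * (if β = -θ then 1 else 0) := by
    rw [← Auk.fm, ka, kb, fm_smul_left, fm_smul_right, fm_E_E C hθ hβ]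
    ring
  have hab := ip_abs_le hθ hβ
  refine ⟨xa, xb, ?_, ?_, ?_, ?_, ?_, ?_⟩
  · intro k' hk'
    refine ⟨k * k'⁻¹, mul_mem hk (inv_mem hk'), β, hβ, hm, c, c', hc, hc', ?_, ?_⟩
    · have : (k * k'⁻¹) (k' a) = k a := congrArg k (k'.symm_apply_apply a)
      rw [this, ka]
    · have : (k * k'⁻¹) (k' b) = k b := congrArg k (k'.symm_apply_apply b)
      rw [this, kb]
  · intro c₁ c₂ h1 h2
    refine ⟨k, hk, β, hβ, hm, c₁ * c, c₂ * c', mul_ne_zero h1 hc, mul_ne_zero h2 hc', ?_, ?_⟩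
    · rw [map_smul, ka, smul_smul]
    · rw [map_smul, kb, smul_smul]
  · constructor
    · intro h
      have hβθ : θ = β := eq_of_ip_eq_two hθ hβ (by rw [hm, h])
      refine ⟨c' * c⁻¹, ?_⟩
      rw [eb, ea, ← hβθ, smul_smul]
      congr 1
      field_simp
    · rintro ⟨c₁, h⟩
      have h1 : c' • (E C β : Lm C F) = (c₁ * c) • E C θ := by
        rw [← kb, h, map_smul, ka, smul_smul]
      have h2 := congrArg (fun x : Lm C F => cf x β) h1
      simp only [cf_smul, cf_E C hβ, cf_E C hθ, if_true] at h2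
      by_cases e : β = θ
      · rw [← hm, e, hθ]
      · rw [if_neg e] at h2
        simp at h2
        exact absurd h2 hc'
  · rw [fmab]
    constructor
    · intro h
      by_cases e : β = -θ
      · rw [← hm, e, ip_neg_right, hθ]
      · rw [if_neg e, mul_zero] at h
        exact absurd rfl h
    · intro h
      have e : β = -θ := eq_neg_of_ip_eq_neg_two hθ hβ (by rw [hm, h])
      rw [if_pos e, mul_one]
      exact mul_ne_zero hc hc'
  · intro h
    have hγ : ip C (β - θ) (β - θ) = 2 := (sub_root_iff hβ hθ).2 (by rw [ip_comm, hm, h])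
    have hθγ : ip C θ (β - θ) = -1 := by rw [ip_sub_right, hm, h, hθ]; norm_num
    have nγ : β - θ ≠ -θ := by
      intro e
      rw [e, ip_neg_right, hθ] at hθγ
      omega
    have e1 : θ + (β - θ) = β := by abel
    have q := sg_ne_zero (F := F) C θ (β - θ)
    refine ⟨(c' * (c * (sg C θ (β - θ) : F))⁻¹) • k⁻¹ (E C (β - θ)), ?_, ?_⟩
    · have kk : k (k⁻¹ (E C (β - θ)) : Lm C F) = E C (β - θ) := k.apply_symm_apply _
      rw [← Auk.fm, ka, map_smul, kk, fm_smul_left, fm_smul_right, fm_E_E C hθ hγ, if_neg nγ]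
      ring
    · have kk : k (k⁻¹ (E C (β - θ)) : Lm C F) = E C (β - θ) := k.apply_symm_apply _
      apply k.injective
      rw [Auk.br, ka, map_smul, kk, kb, br_smul_left, br_smul_right, br_E_E C hθ hγ, if_neg nγ, e1, sub_zero, smul_smul,
        smul_smul]
      congr 1
      field_simp
  · obtain ⟨-, -, -, -, ca, -, -, cja, -⟩ := hE a xa
    obtain ⟨-, -, -, -, cb, -, -, cjb, -⟩ := hE b xb
    constructor
    · intro hcom
      by_contra hneg
      push Not at hneg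
      obtain ⟨h, hh, hX⟩ := ca c⁻¹
      obtain ⟨g, hg, gX⟩ := cb c'⁻¹
      have comm := hcom ⟨h, hh⟩ ⟨g, hg⟩ ⟨_, hX⟩ ⟨_, gX⟩
      have comm' : h * g = g * h := congrArg Subtype.val comm
      have X1 := cja k hk _ _ hX
      have X2 := cjb k hk _ _ gX
      rw [ka] at X1
      rw [kb] at X2
      have Y1 : ∀ v, (k * h * k⁻¹) v = xe C (E C θ) 1 v := by
        intro v
        rw [X1 v, TPF_xe_smul_left, mul_inv_cancel₀ hc]
      have Y2 : ∀ v, (k * g * k⁻¹) v = xe C (E C β) 1 v := by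
        intro v
        rw [X2 v, TPF_xe_smul_left, mul_inv_cancel₀ hc']
      have cm : (k * h * k⁻¹) * (k * g * k⁻¹) = (k * g * k⁻¹) * (k * h * k⁻¹) := by
        have e1 : (k * h * k⁻¹) * (k * g * k⁻¹) = k * (h * g) * k⁻¹ := by group
        have e2 : (k * g * k⁻¹) * (k * h * k⁻¹) = k * (g * h) * k⁻¹ := by group
        rw [e1, e2, comm']
      have hc2 : ∀ v : Lm C F, xe C (E C θ) 1 (xe C (E C β) 1 v) = xe C (E C β) 1 (xe C (E C θ) 1 v) := by
        intro v
        have := congrArg (fun f : Lm C F ≃ₗ[F] Lm C F => f v) cm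
        simp only [LinearEquiv.mul_apply] at this
        have t1 : (k * h * k⁻¹) ((k * g * k⁻¹) v) = (k * g * k⁻¹) ((k * h * k⁻¹) v) := by
          simpa only [LinearEquiv.mul_apply] using this
        rw [Y2 v, Y1, Y1 v, Y2] at t1
        exact t1
      have hm' : m = -1 ∨ m = -2 := by omega
      rcases hm' with e | e
      · exact TPF_m1 C hACT hθ hβ (by rw [hm, e]) hc2
      · have e' : β = -θ := eq_neg_of_ip_eq_neg_two hθ hβ (by rw [hm, e])
        rw [e'] at hc2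
        exact TPF_m2 C hACT hn hθ hc2
    · intro hm0 h g hX gX
      obtain ⟨s, hX⟩ := hX
      obtain ⟨t, gX⟩ := gX
      have X1 := cja k hk _ _ hX
      have X2 := cjb k hk _ _ gX
      rw [ka] at X1
      rw [kb] at X2
      have Y1 : ∀ v, (k * (h : Lm C F ≃ₗ[F] Lm C F) * k⁻¹) v = xe C (E C θ) (c * s) v := by
        intro v
        rw [X1 v, TPF_xe_smul_left]
      have Y2 : ∀ v, (k * (g : Lm C F ≃ₗ[F] Lm C F) * k⁻¹) v = xe C (E C β) (c' * t) v := by
        intro v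
        rw [X2 v, TPF_xe_smul_left]
      have cm : (k * (h : Lm C F ≃ₗ[F] Lm C F) * k⁻¹) * (k * (g : Lm C F ≃ₗ[F] Lm C F) * k⁻¹) =
          (k * (g : Lm C F ≃ₗ[F] Lm C F) * k⁻¹) * (k * (h : Lm C F ≃ₗ[F] Lm C F) * k⁻¹) := by
        apply LinearEquiv.ext
        intro v
        have t1 : (k * (h : Lm C F ≃ₗ[F] Lm C F) * k⁻¹) ((k * (g : Lm C F ≃ₗ[F] Lm C F) * k⁻¹) v) =
            (k * (g : Lm C F ≃ₗ[F] Lm C F) * k⁻¹) ((k * (h : Lm C F ≃ₗ[F] Lm C F) * k⁻¹) v) := by
          rw [Y2 v, Y1, Y1 v, Y2]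
          exact (hCOL n C F θ β hθ hβ).2 (by rw [hm]; exact hm0) _ _ _
        exact t1
      apply Subtype.ext
      change (h : Lm C F ≃ₗ[F] Lm C F) * (g : Lm C F ≃ₗ[F] Lm C F) = (g : Lm C F ≃ₗ[F] Lm C F) * (h : Lm C F ≃ₗ[F] Lm C F)
      have e1 : (k * (h : Lm C F ≃ₗ[F] Lm C F) * k⁻¹) * (k * (g : Lm C F ≃ₗ[F] Lm C F) * k⁻¹) = k * (h * g) * k⁻¹ := by group
      have e2 : (k * (g : Lm C F ≃ₗ[F] Lm C F) * k⁻¹) * (k * (h : Lm C F ≃ₗ[F] Lm C F) * k⁻¹) = k * (g * h) * k⁻¹ := by group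
      rw [e1, e2] at cm
      exact mul_left_cancel (mul_right_cancel cm)

end Pool.Agent.EXC
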